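import Pool.Agent.Helper54.S4.Stmts

/-!
Simplicial 4-polytopes, module LL4: heights for the six points of a half gate.
-/

set_option autoImplicit false

namespace Pool.Agent.Helper54.S4

open Finset Pool.Agent.Helper54.SP Filter Topology

theorem ll4_ev {K : ℝ} (hK : 0 < K) (c1 c2 c3 : ℝ) {m n1 n2 n3 : ℕ} (h1 : n1 < m) (h2 : n2 < m)
    (h3 : n3 < m) :
    ∀ᶠ T : ℝ in atTop, 0 < K * T ^ m + c1 * T ^ n1 + c2 * T ^ n2 + c3 * T ^ n3 := by
  filter_upwards [eventually_ge_atTop (1 : ℝ),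
    eventually_gt_atTop ((|c1| + |c2| + |c3|) / K)] with T hT1 hT2
  have hm : m = (m - 1) + 1 := by omega
  have hp : 0 < T ^ (m - 1) := pow_pos (by linarith) _
  have e1 : T ^ m = T ^ (m - 1) * T := by rw [← pow_succ, ← hm]
  have g : ∀ (c : ℝ) (n : ℕ), n < m → -(|c| * T ^ (m - 1)) ≤ c * T ^ n := by
    intro c n hn
    have a1 : T ^ n ≤ T ^ (m - 1) := pow_le_pow_right₀ hT1 (by omega)
    have a2 : 0 ≤ T ^ n := pow_nonneg (by linarith) _
    have a3 : -|c| ≤ c := neg_abs_le c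
    have a4 : 0 ≤ |c| := abs_nonneg c
    nlinarith
  have b1 := g c1 n1 h1
  have b2 := g c2 n2 h2
  have b3 := g c3 n3 h3
  have b4 : (|c1| + |c2| + |c3|) < T * K := (div_lt_iff₀ hK).1 hT2
  rw [e1]
  nlinarith

theorem ll4_inj : ∀ t : Bool, ∀ a < 6, ∀ b < 6, a ≠ b → al t a ≠ al t b := by
  decide

theorem ll4_sbn (b : Bool) : sb (!b) = -sb b := by
  cases b <;> simp [sb]

theorem ll4_q (t : Bool) (ξ y : ℕ → ℝ)
    (H : ∀ a b c, a < b → b < c → c < 6 → 0 < sb (tb4 t a b c) * D3 ξ y a b c)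
    (a b c d : ℕ) (hab : a < b) (hbc : b < c) (hcd : c < d) (hd : d < 6) :
    ∀ᶠ T : ℝ in atTop, 0 < sb (l4 t a b c d) *
      (-T ^ al t a * D3 ξ y b c d + T ^ al t b * D3 ξ y a c d - T ^ al t c * D3 ξ y a b d +
        T ^ al t d * D3 ξ y a b c) := by
  have iab := ll4_inj t a (by omega) b (by omega) (by omega)
  have iac := ll4_inj t a (by omega) c (by omega) (by omega)
  have iad := ll4_inj t a (by omega) d (by omega) (by omega)
  have ibc := ll4_inj t b (by omega) c (by omega) (by omega)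
  have ibd := ll4_inj t b (by omega) d (by omega) (by omega)
  have icd := ll4_inj t c (by omega) d (by omega) (by omega)
  unfold l4
  split_ifs with h1 h2 h3
  · have hK := H a b c hab hbc (by omega)
    filter_upwards [ll4_ev hK (-(sb (tb4 t a b c) * D3 ξ y b c d))
      (sb (tb4 t a b c) * D3 ξ y a c d) (-(sb (tb4 t a b c) * D3 ξ y a b d))
      (m := al t d) (n1 := al t a) (n2 := al t b) (n3 := al t c) (by omega) (by omega)
      (by omega)] with T hT
    refine lt_of_lt_of_eq hT ?_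
    ring
  · have hK := H a b d hab (by omega) (by omega)
    rw [ll4_sbn]
    filter_upwards [ll4_ev hK ((sb (tb4 t a b d) * D3 ξ y b c d))
      (-(sb (tb4 t a b d) * D3 ξ y a c d)) (-(sb (tb4 t a b d) * D3 ξ y a b c))
      (m := al t c) (n1 := al t a) (n2 := al t b) (n3 := al t d) (by omega) (by omega)
      (by omega)] with T hT
    refine lt_of_lt_of_eq hT ?_
    ring
  · have hK := H a c d (by omega) (by omega) (by omega)
    filter_upwards [ll4_ev hK (-(sb (tb4 t a c d) * D3 ξ y b c d))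
      (-(sb (tb4 t a c d) * D3 ξ y a b d)) ((sb (tb4 t a c d) * D3 ξ y a b c))
      (m := al t b) (n1 := al t a) (n2 := al t c) (n3 := al t d) (by omega) (by omega)
      (by omega)] with T hT
    refine lt_of_lt_of_eq hT ?_
    ring
  · have hK := H b c d (by omega) (by omega) (by omega)
    rw [ll4_sbn]
    filter_upwards [ll4_ev hK (-(sb (tb4 t b c d) * D3 ξ y a c d))
      ((sb (tb4 t b c d) * D3 ξ y a b d)) (-(sb (tb4 t b c d) * D3 ξ y a b c))
      (m := al t a) (n1 := al t b) (n2 := al t c) (n3 := al t d) (by omega) (by omega)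
      (by omega)] with T hT
    refine lt_of_lt_of_eq hT ?_
    ring

theorem st_LL4 : ST_LL4 := by
  intro t ξ y H
  -- the base
  have hT : ∀ᶠ T : ℝ in atTop, ∀ q ∈ (range 6 ×ˢ range 6 ×ˢ range 6 ×ˢ range 6 :
      Finset (ℕ × ℕ × ℕ × ℕ)), q.1 < q.2.1 → q.2.1 < q.2.2.1 → q.2.2.1 < q.2.2.2 →
      0 < sb (l4 t q.1 q.2.1 q.2.2.1 q.2.2.2) *
      (-T ^ al t q.1 * D3 ξ y q.2.1 q.2.2.1 q.2.2.2 +
        T ^ al t q.2.1 * D3 ξ y q.1 q.2.2.1 q.2.2.2 -
        T ^ al t q.2.2.1 * D3 ξ y q.1 q.2.1 q.2.2.2 +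
        T ^ al t q.2.2.2 * D3 ξ y q.1 q.2.1 q.2.2.1) := by
    rw [Filter.eventually_all_finset]
    rintro ⟨a, b, c, d⟩ hq
    simp only [Finset.mem_product, Finset.mem_range] at hq
    by_cases h1 : a < b
    · by_cases h2 : b < c
      · by_cases h3 : c < d
        · filter_upwards [ll4_q t ξ y H a b c d h1 h2 h3 hq.2.2.2] with T hT _ _ _
          exact hT
        · exact Eventually.of_forall fun T _ _ h => absurd h h3
      · exact Eventually.of_forall fun T _ h => absurd h h2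
    · exact Eventually.of_forall fun T h => absurd h h1
  obtain ⟨T, hT0, hTq⟩ := ((eventually_gt_atTop (0 : ℝ)).and hT).exists
  -- the scale
  have he : ∀ᶠ e : ℝ in 𝓝[>] 0, ∀ q ∈ (range 6 ×ˢ range 6 ×ˢ range 6 : Finset (ℕ × ℕ × ℕ)),
      q.1 < q.2.1 → q.2.1 < q.2.2 →
      0 < sb (!tb4 t q.1 q.2.1 q.2.2) *
      (-D3 ξ y q.1 q.2.1 q.2.2 + e * T ^ al t q.1 * (ξ q.2.2 - ξ q.2.1) -
        e * T ^ al t q.2.1 * (ξ q.2.2 - ξ q.1) + e * T ^ al t q.2.2 * (ξ q.2.1 - ξ q.1)) := by
    rw [Filter.eventually_all_finset]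
    rintro ⟨a, b, c⟩ hq
    simp only [Finset.mem_product, Finset.mem_range] at hq
    by_cases h1 : a < b
    · by_cases h2 : b < c
      · have hK := H a b c h1 h2 hq.2.2
        have hcont : Continuous fun e : ℝ => sb (!tb4 t a b c) *
            (-D3 ξ y a b c + e * T ^ al t a * (ξ c - ξ b) -
              e * T ^ al t b * (ξ c - ξ a) + e * T ^ al t c * (ξ b - ξ a)) := by
          fun_prop
        have h0 : 0 < sb (!tb4 t a b c) *
            (-D3 ξ y a b c + (0 : ℝ) * T ^ al t a * (ξ c - ξ b) -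
              (0 : ℝ) * T ^ al t b * (ξ c - ξ a) + (0 : ℝ) * T ^ al t c * (ξ b - ξ a)) := by
          rw [ll4_sbn]
          refine lt_of_lt_of_eq hK ?_
          ring
        have h3 : ∀ᶠ e : ℝ in 𝓝 0, 0 < sb (!tb4 t a b c) *
            (-D3 ξ y a b c + e * T ^ al t a * (ξ c - ξ b) -
              e * T ^ al t b * (ξ c - ξ a) + e * T ^ al t c * (ξ b - ξ a)) :=
          (hcont.tendsto 0).eventually (lt_mem_nhds h0)
        filter_upwards [nhdsWithin_le_nhds h3] with e he _ _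
        exact he
      · exact Eventually.of_forall fun T _ h => absurd h h2
    · exact Eventually.of_forall fun T h => absurd h h1
  have hpos : ∀ᶠ e : ℝ in 𝓝[>] 0, 0 < e := self_mem_nhdsWithin
  obtain ⟨e, he0, heq⟩ := (hpos.and he).exists
  refine ⟨fun i => e * T ^ al t i, fun i => mul_pos he0 (pow_pos hT0 _), ?_, ?_⟩
  · intro a b c d hab hbc hcd hd
    have := hTq (a, b, c, d) (by simp only [Finset.mem_product, Finset.mem_range]; omega)
      hab hbc hcd
    refine lt_of_lt_of_eq (mul_pos he0 this) ?_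
    simp only
    ring
  · intro a b c hab hbc hc
    exact heq (a, b, c) (by simp only [Finset.mem_product, Finset.mem_range]; omega) hab hbc

end Pool.Agent.Helper54.S4
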